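import Mathlib
import Pool.Agent.BBD.ClassDefs

/-!
# The generic member of a net of divisors
-/

open CategoryTheory MonoidalCategory CartesianMonoidalCategory

namespace Pool.Agent.Weil

universe v u w x y

variable {𝒱 : Type u} [Category.{v} 𝒱] [CartesianMonoidalCategory 𝒱]
  {𝒱' : Type u} [Category.{v} 𝒱'] [CartesianMonoidalCategory 𝒱']
  {T : IntersectionTheory.{v, u, w} 𝒱} {T' : IntersectionTheory.{v, u, w} 𝒱'}
  {K : Type x} [Field K]

/-- The varieties over an algebraically closed field `k` form the category `𝒱`, those over an algebraic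
closure `k'` of the function field of `P` form the category `𝒱'`. The variety `Y` over `k'` has the
formal properties of the geometric generic member of the net of divisors on `X` parametrised by `P`,
with total space `D` (the incidence variety) and `g : D ⟶ X × P`.

Example: let `h` be the class of a very ample divisor on `X`, let `P ≅ ℙ²` be a general net in the
complete linear system, `ζ` the class of a line, `D = {(x, p) : x ∈ H_p}`, `g` the inclusion, and `r` the
restriction to the geometric generic fibre `Y` of `D ⟶ P`. Then `D` is a smooth ample divisor of class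
`h + ζ` on `X × P` (`member`), `weak` and `injective` follow from the weak Lefschetz theorem, and
`spread` holds for the average of the conjugates of the closure of `z` in `D ×_P D`. -/
structure IsNet (W : WeilCohomology.{v, u, w, x, y} T K) (W' : WeilCohomology.{v, u, w, x, y} T' K)
    {X P D : 𝒱} {Y : 𝒱'} (h : T.obj X) (h' : T'.obj Y) (ζ : T.obj P) (g : D ⟶ X ⊗ P)
    (r : W.obj D → W'.obj Y) : Prop where
  dim_plane : T.dim P = 2
  dim_total : T.dim D = T.dim X + 1
  dim_member : T'.dim Y + 1 = T.dim X
  degree_line : T.InDegree 1 ζ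
  /-- the cohomology of the plane -/
  plane : W.IsBasis ![1, W.cl ζ, W.cup (W.cl ζ) (W.cl ζ)]
  point : W.lower (toUnit P) (W.cup (W.cl ζ) (W.cl ζ)) = 1
  /-- the class of the incidence variety -/
  member : W.lower g 1 = W.cl (T.upper (fst X P) h) + W.cl (T.upper (snd X P) ζ)
  weak : ∀ (j : ℤ) (α : W.obj D), j < T.dim D → W.InDegree j α →
    ∃ β : W.obj (X ⊗ P), W.InDegree j β ∧ W.upper g β = α
  /-- `r` is a homomorphism of graded algebras -/
  linear : ∀ (c : K) (α β : W.obj D), r (W.comb c α β) = W'.comb c (r α) (r β)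
  cup : ∀ α β : W.obj D, r (W.cup α β) = W'.cup (r α) (r β)
  degree : ∀ (j : ℤ) (α : W.obj D), W.InDegree j α → W'.InDegree j (r α)
  line : r (W.cl (T.upper (g ≫ snd X P) ζ)) = 0
  divisor : r (W.cl (T.upper (g ≫ fst X P) h)) = W'.cl h'
  injective : ∀ (j : ℤ) (α : W.obj X), j ≤ T'.dim Y → W.InDegree j α →
    r (W.upper (g ≫ fst X P) α) = 0 → α = 0
  /-- a cycle on `Y × Y` spreads out to a cycle on `D × D` supported on `D ×_P D` -/
  spread : ∀ (i : ℤ) (z : T'.obj (Y ⊗ Y)), T'.InDegree i z →
    ∃ z' : T.obj (D ⊗ D), T.InDegree (i + 2) z' ∧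
      (∀ α : W.obj D, W.act z' (W.lefschetz (T.upper (g ≫ snd X P) ζ) 1 α) =
        W.lefschetz (T.upper (g ≫ snd X P) ζ) 1 (W.act z' α)) ∧
      ∀ α β : W.obj D, W'.act z (r α) = r β → r (W.act z' α) = r β

/-- `(Y, h')` (over `k'`) has the formal properties of the geometric generic member of a net in the
linear system of `h` on `X` (over `k`). -/
def IsNetSection (W : WeilCohomology.{v, u, w, x, y} T K)
    (W' : WeilCohomology.{v, u, w, x, y} T' K) (X : 𝒱) (h : T.obj X) (Y : 𝒱')
    (h' : T'.obj Y) : Prop :=
  ∃ (P D : 𝒱) (ζ : T.obj P) (g : D ⟶ X ⊗ P) (r : W.obj D → W'.obj Y),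
    IsNet W W' h h' ζ g r

end Pool.Agent.Weil
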