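import Mathlib
import Pool.Agent.NET.Defs

/-!
# Classes of varieties closed under generic members of nets
-/

open CategoryTheory MonoidalCategory CartesianMonoidalCategory

namespace Pool.Agent.Weil

universe s t v u w x y

/-- For every `κ` in `Λ` (an algebraically closed field) let `𝒱 κ` be the category of varieties over
`κ`, with its intersection theory `T κ` and a family of Weil cohomology theories `W κ ℓ`. Let `S` be
a class of varieties `X` with a class `h` of codimension one (over the various fields) and let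
`C` be a class of varieties. Then `IsNetClass W ℓ₀ S C` says that for all `(X, h)` in `S`

* `h` satisfies the hard Lefschetz theorem for the theory `ℓ₀`, and the Betti numbers of `X` for the
  other theories are not larger than those for `ℓ₀`,
* if `X` belongs to `C` and `dim X ≥ 2`, then `S` contains the geometric generic member of a net in
  the linear system of some multiple of `h` (Bertini),
* `X` is dominated by a variety `Z` of the same dimension which belongs to `S` and to `C`, by a
  morphism with a perverse decomposition for `ℓ₀`.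

Example: `S` is the class of all smooth projective varieties with an ample class over all
algebraically closed fields of a given characteristic (of bounded cardinality), and `C` is the
class of all varieties, or the class of all varieties which are fibred in curves over a smooth
projective variety (de Jong). -/
structure IsNetClass {Λ : Type s} {𝒱 : Λ → Type u} [∀ κ, Category.{v} (𝒱 κ)]
    [∀ κ, CartesianMonoidalCategory (𝒱 κ)] {T : ∀ κ, IntersectionTheory.{v, u, w} (𝒱 κ)}
    {ι : Type t} {K : ι → Type x} [∀ ℓ, Field (K ℓ)]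
    (W : ∀ κ ℓ, WeilCohomology.{v, u, w, x, y} (T κ) (K ℓ)) (ℓ₀ : ι)
    (S : ∀ (κ : Λ) (X : 𝒱 κ), (T κ).obj X → Prop) (C : ∀ κ : Λ, 𝒱 κ → Prop) : Prop where
  degree : ∀ (κ : Λ) (X : 𝒱 κ) (h : (T κ).obj X), S κ X h → (T κ).InDegree 1 h
  hard : ∀ (κ : Λ) (X : 𝒱 κ) (h : (T κ).obj X), S κ X h →
    ∀ j ≤ (T κ).dim X, (W κ ℓ₀).HardLefschetz h j
  betti : ∀ (κ : Λ) (X : 𝒱 κ) (h : (T κ).obj X), S κ X h →
    ∀ ℓ, ∀ j ≤ (T κ).dim X, (W κ ℓ).betti X j ≤ (W κ ℓ₀).betti X j
  net : ∀ (κ : Λ) (X : 𝒱 κ) (h : (T κ).obj X), S κ X h → C κ X → 2 ≤ (T κ).dim X →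
    ∃ c : ℚ, c ≠ 0 ∧ ∃ (κ' : Λ) (Y : 𝒱 κ') (h' : (T κ').obj Y), S κ' Y h' ∧
      IsNetSection (W κ ℓ₀) (W κ' ℓ₀) X (c • h) Y h'
  dominated : ∀ (κ : Λ) (X : 𝒱 κ) (h : (T κ).obj X), S κ X h →
    ∃ (Z : 𝒱 κ) (h' : (T κ).obj Z) (f : Z ⟶ X), S κ Z h' ∧ C κ Z ∧
      (T κ).GenericallyFinite f ∧ (W κ ℓ₀).HasDecomposition f

end Pool.Agent.Weil
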