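import Mathlib
import Pool.Agent.BBD.Descent
import Pool.Agent.Spread.Core

/-!
# The net argument
-/

open CategoryTheory MonoidalCategory CartesianMonoidalCategory
open scoped TensorProduct

namespace Pool.Agent.WeilUniform

set_option linter.unusedSectionVars false

universe t v u w x y

variable {𝒱 : Type u} [Category.{v} 𝒱] [CartesianMonoidalCategory 𝒱]
  {𝒱' : Type u} [Category.{v} 𝒱'] [CartesianMonoidalCategory 𝒱']

namespace WeilCohomology

section

variable {T : IntersectionTheory.{v, u, w} 𝒱} {K : Type x} [Field K]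
  (W : WeilCohomology.{v, u, w, x, y} T K) {X P D : 𝒱}

/-- base change for `X × P ⟶ X ⟶ pt`. -/
lemma push_fst_pull_snd' (y : W.H P) :
    W.push (fst X P) (W.pull (snd X P) y) = algebraMap K (W.H X) (W.integral P y) := by
  have h1 := W.base_change (toUnit X) P (W.pull (snd (𝟙_ 𝒱) P) y)
  rw [← W.pull_comp, whiskerRight_snd] at h1
  rw [← h1]
  have h2 : fst (𝟙_ 𝒱) P = snd (𝟙_ 𝒱) P ≫ toUnit P := toUnit_unique _ _
  have h3 : IsIso (snd (𝟙_ 𝒱) P) := by
    rw [← leftUnitor_hom]; infer_instance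
  rw [h2, W.push_comp, W.push_iso, ← W.algebraMap_integral, AlgHom.commutes]

/-- The assembly of the inverse Lefschetz operator. -/
theorem exists_inverse_of_prim [CharZero K] {h : T.CH X} (hh : h ∈ T.gr X 1) {i : ℕ} (hi : i ≤ T.dim X)
    (hard : ∀ α ∈ W.gr X i, α * W.cl X h ^ (T.dim X - i) = 0 → α = 0)
    {μ : T.CH (X ⊗ X)} (hμ : μ ∈ T.gr (X ⊗ X) ((i : ℤ) - 2))
    (hμ1 : ∀ α ∈ W.gr X ((i : ℤ) - 2), W.corr μ (α * W.cl X h ^ (T.dim X - i + 2)) = α)
    (hμ2 : ∀ β ∈ W.gr X (2 * T.dim X - i + 2), W.corr μ β * W.cl X h ^ (T.dim X - i + 2) = β)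
    {z : T.CH (X ⊗ X)}
    (hz : ∀ y ∈ W.gr X i, y * W.cl X h ^ (T.dim X - i + 1) = 0 →
      ∃ c ∈ W.gr X ((i : ℤ) - 2), W.corr z (y * W.cl X h ^ (T.dim X - i)) = y + c * W.cl X h) :
    ∃ θ ∈ T.gr (X ⊗ X) i, ∀ β ∈ W.gr X (2 * T.dim X - i), W.corr θ β = 0 → β = 0 := by
  obtain ⟨k, hk⟩ : ∃ k : ℕ, k = T.dim X - i := ⟨_, rfl⟩
  rw [← hk] at hard hμ1 hμ2 hz
  set Hc := W.cl X h with hHc
  let L : ℕ → T.CH (X ⊗ X) := fun r => T.push (lift (𝟙 X) (𝟙 X)) (h ^ r)
  have hL : ∀ r α, W.corr (L r) α = α * Hc ^ r := by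
    intro r α
    change W.corr (T.push (lift (𝟙 X) (𝟙 X)) (h ^ r)) α = _
    rw [W.corr_diag, map_pow]
  let P1 : T.CH (X ⊗ X) := L 0 + (-1 : ℚ) • T.cmp (L 1) (T.cmp μ (L (k + 1)))
  let Q1 : T.CH (X ⊗ X) := L 0 + (-1 : ℚ) • T.cmp (L (k + 1)) (T.cmp μ (L 1))
  have hP1 : ∀ α, W.corr P1 α = α - W.corr μ (α * Hc ^ (k + 1)) * Hc := by
    intro α
    change W.corr (L 0 + (-1 : ℚ) • T.cmp (L 1) (T.cmp μ (L (k + 1)))) α = _
    rw [W.corr_add, W.corr_smul, LinearMap.add_apply, LinearMap.smul_apply, W.corr_cmp, W.corr_cmp,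
      LinearMap.comp_apply, LinearMap.comp_apply, hL, hL, hL, pow_zero, mul_one, pow_one]
    push_cast
    rw [neg_one_smul, ← sub_eq_add_neg]
  have hQ1 : ∀ α, W.corr Q1 α = α - W.corr μ (α * Hc) * Hc ^ (k + 1) := by
    intro α
    change W.corr (L 0 + (-1 : ℚ) • T.cmp (L (k + 1)) (T.cmp μ (L 1))) α = _
    rw [W.corr_add, W.corr_smul, LinearMap.add_apply, LinearMap.smul_apply, W.corr_cmp, W.corr_cmp,
      LinearMap.comp_apply, LinearMap.comp_apply, hL, hL, hL, pow_zero, mul_one, pow_one]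
    push_cast
    rw [neg_one_smul, ← sub_eq_add_neg]
  refine ⟨part (X ⊗ X) i (T.cmp P1 (T.cmp z Q1) + T.cmp (L 1) (T.cmp μ (L 1))), part_mem _ _ _,
    fun β hβ h0 => ?_⟩
  -- the preimage of `β`
  let φ : W.gr X i →ₗ[K] W.gr X (2 * T.dim X - i) :=
    LinearMap.codRestrict _ ((LinearMap.mulRight K (Hc ^ k)) ∘ₗ (W.gr X i).subtype) (fun α =>
      W.mul_pow_mem hh k (by omega) α.2)
  have hφ : Function.Injective φ := by
    rw [injective_iff_map_eq_zero]
    intro α hα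
    exact Subtype.ext (hard α α.2 (congrArg Subtype.val hα))
  obtain ⟨⟨x, hx⟩, hα⟩ := (LinearMap.injective_iff_surjective_of_finrank_eq_finrank
    (W.finrank_symm (X := X) i)).1 hφ ⟨β, hβ⟩
  have hxβ : x * Hc ^ k = β := congrArg Subtype.val hα
  set m := W.corr μ (x * Hc ^ (k + 1)) with hm
  have hx1 : x * Hc ^ (k + 1) ∈ W.gr X (2 * T.dim X - i + 2) :=
    W.mul_pow_mem hh (k + 1) (by push_cast; omega) hx
  have hmg : m ∈ W.gr X ((i : ℤ) - 2) := W.corr_mem hμ hx1 (by ring)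
  have hm2 : m * Hc ^ (k + 2) = x * Hc ^ (k + 1) := hμ2 _ hx1
  set y := x - m * Hc with hy
  have hyg : y ∈ W.gr X i := by
    refine sub_mem hx ?_
    have := W.mul_pow_mem hh 1 (k := i) (by push_cast; ring) hmg
    rwa [pow_one] at this
  have hyp : y * Hc ^ (k + 1) = 0 := by
    rw [hy, sub_mul, mul_assoc, ← pow_succ', hm2, sub_self]
  obtain ⟨c, hc, hzc⟩ := hz y hyg hyp
  have e1 : W.corr Q1 β = y * Hc ^ k := by
    rw [hQ1, ← hxβ, mul_assoc, ← pow_succ, hy, sub_mul, mul_assoc m, ← pow_succ']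
  have e2 : W.corr P1 (y + c * Hc) = y := by
    have e3 : (y + c * Hc) * Hc ^ (k + 1) = c * Hc ^ (k + 2) := by
      rw [add_mul, hyp, zero_add, mul_assoc, ← pow_succ']
    rw [hP1, e3, hμ1 c hc, add_sub_cancel_right]
  have e4 : W.corr (T.cmp P1 (T.cmp z Q1) + T.cmp (L 1) (T.cmp μ (L 1))) β = x := by
    rw [W.corr_add, LinearMap.add_apply, W.corr_cmp, W.corr_cmp, W.corr_cmp, W.corr_cmp,
      LinearMap.comp_apply, LinearMap.comp_apply, LinearMap.comp_apply, LinearMap.comp_apply, e1,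
      hzc, e2, hL, hL, pow_one]
    have e5 : W.corr μ (β * Hc) = m := by rw [← hxβ, mul_assoc, ← pow_succ]
    rw [e5, hy, sub_add_cancel]
  rw [W.corr_part (r := i) (j := 2 * T.dim X - i) (k := i) _ (by ring) hβ, e4,
    W.proj_same hx] at h0
  rw [← hxβ, h0, zero_mul]

end

/-- The data of a net, in the form used in the proofs. -/
structure Net {T : IntersectionTheory.{v, u, w} 𝒱} {T' : IntersectionTheory.{v, u, w} 𝒱'}
    {K : Type x} [Field K] (W : WeilCohomology.{v, u, w, x, y} T K)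
    (W' : WeilCohomology.{v, u, w, x, y} T' K) {X P D : 𝒱} {Y : 𝒱'} (h : T.CH X) (h' : T'.CH Y)
    (ζ : T.CH P) (g : D ⟶ X ⊗ P) (r : W.H D →ₗ[K] W'.H Y) : Prop where
  dimP : T.dim P = 2
  dimD : T.dim D = T.dim X + 1
  dimY : T'.dim Y + 1 = T.dim X
  hζ : ζ ∈ T.gr P 1
  plane : ∀ β : W.H P, ∃ c₀ c₁ c₂ : K,
    β = c₀ • 1 + c₁ • W.cl P ζ + c₂ • (W.cl P ζ * W.cl P ζ)
  point : W.integral P (W.cl P ζ * W.cl P ζ) = 1
  member : W.push g 1 = W.pull (fst X P) (W.cl X h) + W.pull (snd X P) (W.cl P ζ)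
  weak : ∀ j : ℤ, j < T.dim D → ∀ α ∈ W.gr D j, ∃ β ∈ W.gr (X ⊗ P) j, W.pull g β = α
  r_mul : ∀ α β, r (α * β) = r α * r β
  r_mem : ∀ (j : ℤ), ∀ α ∈ W.gr D j, r α ∈ W'.gr Y j
  r_line : r (W.pull g (W.pull (snd X P) (W.cl P ζ))) = 0
  r_divisor : r (W.pull g (W.pull (fst X P) (W.cl X h))) = W'.cl Y h'
  r_inj : ∀ j : ℤ, j ≤ T'.dim Y → ∀ α ∈ W.gr X j, r (W.pull g (W.pull (fst X P) α)) = 0 → α = 0
  spread : ∀ (i : ℤ), ∀ z ∈ T'.gr (Y ⊗ Y) i, ∃ z' ∈ T.gr (D ⊗ D) (i + 2),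
    (∀ α, W.corr z' (α * W.pull g (W.pull (snd X P) (W.cl P ζ))) =
      W.corr z' α * W.pull g (W.pull (snd X P) (W.cl P ζ))) ∧
    ∀ α β, W'.corr z (r α) = r β → r (W.corr z' α) = r β

namespace Net

variable {T : IntersectionTheory.{v, u, w} 𝒱} {T' : IntersectionTheory.{v, u, w} 𝒱'}
  {K : Type x} [Field K] {W : WeilCohomology.{v, u, w, x, y} T K}
  {W' : WeilCohomology.{v, u, w, x, y} T' K} {X P D : 𝒱} {Y : 𝒱'} {h : T.CH X} {h' : T'.CH Y}
  {ζ : T.CH P} {g : D ⟶ X ⊗ P} {r : W.H D →ₗ[K] W'.H Y} (N : Net W W' h h' ζ g r)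

include N

lemma cube : W.cl P ζ * W.cl P ζ * W.cl P ζ = 0 := by
  have h1 := W.cl_mem N.hζ
  have h2 := SetLike.mul_mem_graded (SetLike.mul_mem_graded h1 h1) h1
  rw [W.gr_eq_bot P _ (by right; rw [N.dimP]; norm_num), Submodule.mem_bot] at h2
  exact h2

lemma integral_one : W.integral P (1 : W.H P) = 0 := by
  have h1 : (1 : W.H P) ∈ W.gr P 0 := SetLike.GradedOne.one_mem
  exact W.integral_eq_zero (j := 0) (by rw [N.dimP]; norm_num) h1

lemma integral_line : W.integral P (W.cl P ζ) = 0 :=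
  W.integral_eq_zero (j := 2 * 1) (by rw [N.dimP]; norm_num) (W.cl_mem N.hζ)

omit N in
lemma line_comm (α : W.H (X ⊗ P)) :
    W.pull (snd X P) (W.cl P ζ) * α = α * W.pull (snd X P) (W.cl P ζ) := by
  rw [← W.cl_pull, W.cl_comm]

omit N in
lemma div_comm (α : W.H (X ⊗ P)) :
    W.pull (fst X P) (W.cl X h) * α = α * W.pull (fst X P) (W.cl X h) := by
  rw [← W.cl_pull, W.cl_comm]

omit N in
lemma lineD_comm (α : W.H D) :
    W.pull g (W.pull (snd X P) (W.cl P ζ)) * α = α * W.pull g (W.pull (snd X P) (W.cl P ζ)) := by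
  rw [← W.cl_pull, ← W.cl_pull, W.cl_comm]

/-- The Künneth formula for `X × P`. -/
lemma kunneth (γ : W.H (X ⊗ P)) : ∃ a₀ a₁ a₂ : W.H X,
    γ = W.pull (fst X P) a₀ + W.pull (fst X P) a₁ * W.pull (snd X P) (W.cl P ζ) +
      W.pull (fst X P) a₂ * (W.pull (snd X P) (W.cl P ζ) * W.pull (snd X P) (W.cl P ζ)) := by
  obtain ⟨t, rfl⟩ := (W.kunneth X P).2 γ
  induction t using TensorProduct.induction_on with
  | zero => exact ⟨0, 0, 0, by simp⟩
  | add t t' ht ht' =>
    obtain ⟨a₀, a₁, a₂, ha⟩ := ht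
    obtain ⟨b₀, b₁, b₂, hb⟩ := ht'
    refine ⟨a₀ + b₀, a₁ + b₁, a₂ + b₂, ?_⟩
    rw [map_add, ha, hb, map_add, map_add, map_add, add_mul, add_mul]
    abel
  | tmul a β =>
    obtain ⟨c₀, c₁, c₂, hβ⟩ := N.plane β
    refine ⟨c₀ • a, c₁ • a, c₂ • a, ?_⟩
    have h1 : TensorProduct.lift
      (((LinearMap.mul K (W.H (X ⊗ P))).comp (W.pull (fst X P)).toLinearMap).compl₂
      (W.pull (snd X P)).toLinearMap) (a ⊗ₜ[K] β) = W.pull (fst X P) a * W.pull (snd X P) β := rfl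
    rw [h1, hβ]
    simp only [map_add, map_smul, map_one, map_mul, mul_add, mul_smul_comm, smul_mul_assoc, mul_one]

/-- The Künneth formula for `X × P` in degree `j`. -/
lemma kunneth_gr {j : ℤ} {γ : W.H (X ⊗ P)} (hγ : γ ∈ W.gr (X ⊗ P) j) :
    ∃ a₀ ∈ W.gr X j, ∃ a₁ ∈ W.gr X (j - 2), ∃ a₂ ∈ W.gr X (j - 4),
    γ = W.pull (fst X P) a₀ + W.pull (fst X P) a₁ * W.pull (snd X P) (W.cl P ζ) +
      W.pull (fst X P) a₂ * (W.pull (snd X P) (W.cl P ζ) * W.pull (snd X P) (W.cl P ζ)) := by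
  obtain ⟨a₀, a₁, a₂, hγ'⟩ := N.kunneth γ
  have hZ : W.pull (snd X P) (W.cl P ζ) ∈ W.gr (X ⊗ P) 2 := by
    have := W.pull_mem (snd X P) (W.cl_mem N.hζ)
    rwa [mul_one] at this
  have hZZ : W.pull (snd X P) (W.cl P ζ) * W.pull (snd X P) (W.cl P ζ) ∈ W.gr (X ⊗ P) 4 :=
    SetLike.mul_mem_graded hZ hZ
  have hproj : ∀ (s : ℤ) (Z : W.H (X ⊗ P)), Z ∈ W.gr (X ⊗ P) s → ∀ a : W.H X,
      W.proj (X ⊗ P) j (W.pull (fst X P) a * Z) =
        W.pull (fst X P) (W.proj X (j - s) a) * Z := by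
    intro s Z hZ a
    refine W.hom_ind (P := fun a => W.proj (X ⊗ P) j (W.pull (fst X P) a * Z) =
        W.pull (fst X P) (W.proj X (j - s) a) * Z) (by simp) ?_ ?_ a
    · intro m a ha
      have h1 := SetLike.mul_mem_graded (W.pull_mem (fst X P) ha) hZ
      by_cases hm : m = j - s
      · subst hm
        rw [W.proj_same ha]
        rw [show j - s + s = j by ring] at h1
        exact W.proj_same h1
      · rw [W.proj_ne ha hm, W.proj_ne h1 (by omega), map_zero, zero_mul]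
    · intro a b ha hb
      rw [map_add, map_add, map_add, add_mul, map_add, add_mul, ha, hb]
  refine ⟨W.proj X j a₀, W.proj_mem _ _ _, W.proj X (j - 2) a₁, W.proj_mem _ _ _,
    W.proj X (j - 4) a₂, W.proj_mem _ _ _, ?_⟩
  have h1 := W.proj_same hγ
  rw [hγ', map_add, map_add, W.proj_pull, hproj 2 _ hZ, hproj 4 _ hZZ] at h1
  rw [hγ']
  exact h1.symm

/-- The Künneth formula in low degrees on `D`. -/
lemma kunneth_D {j : ℤ} (hj : j < T.dim D) {α : W.H D} (hα : α ∈ W.gr D j) :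
    ∃ a₀ ∈ W.gr X j, ∃ a₁ ∈ W.gr X (j - 2), ∃ a₂ ∈ W.gr X (j - 4),
    α = W.pull g (W.pull (fst X P) a₀) +
      W.pull g (W.pull (fst X P) a₁) * W.pull g (W.pull (snd X P) (W.cl P ζ)) +
      W.pull g (W.pull (fst X P) a₂) * (W.pull g (W.pull (snd X P) (W.cl P ζ)) *
        W.pull g (W.pull (snd X P) (W.cl P ζ))) := by
  obtain ⟨γ, hγ, rfl⟩ := N.weak j hj α hα
  obtain ⟨a₀, h₀, a₁, h₁, a₂, h₂, hγ'⟩ := N.kunneth_gr hγ
  refine ⟨a₀, h₀, a₁, h₁, a₂, h₂, ?_⟩
  conv_lhs => rw [hγ']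
  simp only [map_add, map_mul]

omit N in
lemma push_pull_g (w : W.H (X ⊗ P)) : W.push g (W.pull g w) = W.push g 1 * w := by
  have := W.push_mul_pull g 1 w
  rwa [one_mul] at this

lemma push_push (a : W.H X) (β : W.H P) :
    W.push (fst X P) (W.push g (W.pull g (W.pull (fst X P) a * W.pull (snd X P) β))) =
      W.integral P β • (W.cl X h * a) + W.integral P (W.cl P ζ * β) • a := by
  have h0 : ∀ (a : W.H X) (β : W.H P), W.push (fst X P) (W.pull (fst X P) a * W.pull (snd X P) β) =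
      W.integral P β • a := by
    intro a β
    rw [W.push_pull_mul, W.push_fst_pull_snd', Algebra.algebraMap_eq_smul_one, mul_smul_comm,
      mul_one]
  rw [push_pull_g, N.member, add_mul, map_add, ← mul_assoc, ← map_mul, h0, line_comm,
    mul_assoc, ← line_comm, ← map_mul, h0]

lemma push_zero (a : W.H X) :
    W.push (fst X P) (W.push g (W.pull g (W.pull (fst X P) a))) = 0 := by
  have := N.push_push a 1
  rw [map_one, mul_one, N.integral_one, zero_smul, mul_one, N.integral_line, zero_smul,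
    add_zero] at this
  exact this

lemma push_one (a : W.H X) :
    W.push (fst X P) (W.push g (W.pull g (W.pull (fst X P) a) *
      W.pull g (W.pull (snd X P) (W.cl P ζ)))) = a := by
  have := N.push_push a (W.cl P ζ)
  rw [N.integral_line, zero_smul, N.point, one_smul, zero_add] at this
  rw [← map_mul]
  exact this

lemma push_two (a : W.H X) :
    W.push (fst X P) (W.push g (W.pull g (W.pull (fst X P) a) *
      (W.pull g (W.pull (snd X P) (W.cl P ζ)) * W.pull g (W.pull (snd X P) (W.cl P ζ))))) =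
        a * W.cl X h := by
  have := N.push_push a (W.cl P ζ * W.cl P ζ)
  rw [N.point, one_smul, ← mul_assoc (W.cl P ζ), N.cube, map_zero, zero_smul, add_zero] at this
  rw [← map_mul, ← map_mul, ← map_mul, this, W.cl_comm]

lemma cube_D : W.pull g (W.pull (snd X P) (W.cl P ζ)) * W.pull g (W.pull (snd X P) (W.cl P ζ)) *
    W.pull g (W.pull (snd X P) (W.cl P ζ)) = 0 := by
  rw [← map_mul, ← map_mul, ← map_mul, ← map_mul, N.cube, map_zero, map_zero]

/-- **The key relation.** -/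
lemma relation (hh : h ∈ T.gr X 1) {i k : ℕ} (hk : k + (i + 2) = T.dim X) {y : W.H X}
    (hy : y ∈ W.gr X i) (h0 : y * W.cl X h ^ (k + 3) = 0) :
    W.pull g (W.pull (fst X P) (y * W.cl X h ^ (k + 2))) =
      W.pull g (W.pull (fst X P) (y * W.cl X h ^ (k + 1))) *
          W.pull g (W.pull (snd X P) (W.cl P ζ)) -
        W.pull g (W.pull (fst X P) (y * W.cl X h ^ k)) *
          (W.pull g (W.pull (snd X P) (W.cl P ζ)) * W.pull g (W.pull (snd X P) (W.cl P ζ))) := by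
  set Z := W.pull (snd X P) (W.cl P ζ) with hZ
  set A := W.pull (fst X P) (W.cl X h) with hA
  set u := W.pull (fst X P) y with hu
  set w : W.H (X ⊗ P) := u * A ^ (k + 2) - u * A ^ (k + 1) * Z + u * A ^ k * (Z * Z) with hw
  have hZm : Z ∈ W.gr (X ⊗ P) 2 := by
    have := W.pull_mem (snd X P) (W.cl_mem N.hζ)
    rwa [mul_one] at this
  have hAm : A ∈ W.gr (X ⊗ P) 2 := by
    have := W.pull_mem (fst X P) (W.cl_mem hh)
    rwa [mul_one] at this
  have hApow : ∀ m : ℕ, A ^ m ∈ W.gr (X ⊗ P) (2 * m) := by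
    intro m
    have := SetLike.pow_mem_graded m hAm
    rwa [nsmul_eq_mul, mul_comm] at this
  have hum : u ∈ W.gr (X ⊗ P) i := W.pull_mem _ hy
  have hZc : ∀ α, Z * α = α * Z := fun α => line_comm α
  have hAc : ∀ α, A * α = α * A := fun α => div_comm α
  have hZ3 : Z * Z * Z = 0 := by
    rw [hZ, ← map_mul, ← map_mul, N.cube, map_zero]
  have hwm : w ∈ W.gr (X ⊗ P) (i + 2 * (k + 2)) := by
    rw [hw]
    refine add_mem (sub_mem ?_ ?_) ?_
    · have := SetLike.mul_mem_graded hum (hApow (k + 2))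
      convert this using 2
      try push_cast
      try ring
    · have := SetLike.mul_mem_graded (SetLike.mul_mem_graded hum (hApow (k + 1))) hZm
      convert this using 2
      push_cast; ring
    · have := SetLike.mul_mem_graded (SetLike.mul_mem_graded hum (hApow k))
        (SetLike.mul_mem_graded hZm hZm)
      convert this using 2
      ring
  have hAZw : (A + Z) * w = 0 := by
    have e1 : u * A ^ (k + 3) = 0 := by
      rw [hu, hA, ← map_pow, ← map_mul, h0, map_zero]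
    have e2 : (A + Z) * w = w * A + w * Z := by rw [add_mul, hAc, hZc]
    rw [e2, hw]
    simp only [add_mul, sub_mul]
    have f1 : u * A ^ (k + 2) * A = 0 := by rw [mul_assoc, ← pow_succ, e1]
    have f2 : u * A ^ (k + 1) * Z * A = u * A ^ (k + 2) * Z := by
      rw [mul_assoc (u * A ^ (k + 1)), hZc, ← mul_assoc, mul_assoc u, ← pow_succ]
    have f3 : u * A ^ k * (Z * Z) * A = u * A ^ (k + 1) * Z * Z := by
      rw [mul_assoc (u * A ^ k), ← hAc, ← mul_assoc, mul_assoc u, ← pow_succ, ← mul_assoc]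
    have f4 : u * A ^ k * (Z * Z) * Z = 0 := by
      rw [mul_assoc, hZ3, mul_zero]
    rw [f1, f2, f3, f4]
    abel
  have hpush : W.push g (W.pull g w) = 0 := by
    rw [push_pull_g, N.member, hAZw]
  have hgw : W.pull g w = 0 := by
    apply W.duality''
    intro β
    refine W.hom_ind (P := fun β => W.integral D (W.pull g w * β) = 0) (by simp) ?_ ?_ β
    · intro j β hβ
      by_cases hj : j = i + 2
      · obtain ⟨γ, -, rfl⟩ := N.weak j (by rw [N.dimD]; push_cast; omega) β hβ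
        apply W.point.1
        rw [W.algebraMap_integral, map_zero, show toUnit D = g ≫ toUnit (X ⊗ P) from
          toUnit_unique _ _, W.push_comp, W.push_mul_pull, hpush, zero_mul, map_zero]
      · refine W.integral_eq_zero (j := i + 2 * (k + 2) + j) ?_
          (SetLike.mul_mem_graded (W.pull_mem g hwm) hβ)
        rw [N.dimD]; push_cast; omega
    · intro β β' hβ hβ'
      rw [mul_add, map_add, hβ, hβ', add_zero]
  have e3 : W.pull g w = W.pull g (W.pull (fst X P) (y * W.cl X h ^ (k + 2))) -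
      W.pull g (W.pull (fst X P) (y * W.cl X h ^ (k + 1))) * W.pull g Z +
        W.pull g (W.pull (fst X P) (y * W.cl X h ^ k)) * (W.pull g Z * W.pull g Z) := by
    rw [hw]
    simp only [map_add, map_sub, map_mul, map_pow, hu, hA]
  rw [e3] at hgw
  rw [← sub_eq_zero, ← hgw]
  abel

/-- **The net argument.** If the inverse Lefschetz operator in degree `i ≤ dim X - 2` of the generic
member of the net is algebraic, then some cycle on `X × X` induces it modulo the image of `h`. -/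
theorem exists_prim (hh : h ∈ T.gr X 1) {i k : ℕ} (hk : k + (i + 2) = T.dim X)
    {lam : T'.CH (Y ⊗ Y)} (hlam : lam ∈ T'.gr (Y ⊗ Y) i)
    (hinv : ∀ α ∈ W'.gr Y i, W'.corr lam (α * W'.cl Y h' ^ (k + 1)) = α) :
    ∃ z ∈ T.gr (X ⊗ X) i, ∀ y ∈ W.gr X i, y * W.cl X h ^ (k + 3) = 0 →
      ∃ c ∈ W.gr X ((i : ℤ) - 2), W.corr z (y * W.cl X h ^ (k + 2)) = y + c * W.cl X h := by
  obtain ⟨lam', hlam', hcomm, hspread⟩ := N.spread i lam hlam
  have hnat : (T.dim X : ℤ) = k + i + 2 := by rw [← hk]; push_cast; ring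
  refine ⟨part (X ⊗ X) i (T.cmp (T.tr (T.graph (g ≫ fst X P)))
    (T.cmp lam' (T.graph (g ≫ fst X P)))), part_mem _ _ _, fun y hy h0 => ?_⟩
  set Zd := W.pull g (W.pull (snd X P) (W.cl P ζ)) with hZd
  have hee : ∀ a, W.pull (g ≫ fst X P) a = W.pull g (W.pull (fst X P) a) :=
    fun a => W.pull_comp _ _ _
  have hpp : ∀ a, W.push (g ≫ fst X P) a = W.push (fst X P) (W.push g a) :=
    fun a => W.push_comp _ _ _
  have hem : ∀ {j : ℤ} {a : W.H X}, a ∈ W.gr X j → W.pull g (W.pull (fst X P) a) ∈ W.gr D j :=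
    fun ha => W.pull_mem g (W.pull_mem _ ha)
  have hlm : ∀ {j l : ℤ} {a : W.H D}, l = j - 2 * (k + 1) → a ∈ W.gr D j →
      W.corr lam' a ∈ W.gr D l := by
    intro j l a hl ha
    refine W.corr_mem hlam' ha ?_
    rw [hl, N.dimD]
    push_cast
    rw [hnat]
    ring
  -- the two auxiliary classes
  have hA1 := hlm (l := i) (by push_cast; ring) (hem (W.mul_pow_mem hh (k + 1) rfl hy))
  have hB1 := hlm (l := (i : ℤ) - 2) (by ring) (hem (W.mul_pow_mem hh k rfl hy))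
  have hltD : (i : ℤ) < T.dim D := by rw [N.dimD]; push_cast; omega
  obtain ⟨a₀, ha₀, a₁, ha₁, a₂, ha₂, hA2⟩ := N.kunneth_D hltD hA1
  obtain ⟨b₀, hb₀, b₁, hb₁, b₂, hb₂, hB2⟩ := N.kunneth_D (by linarith) hB1
  -- the restriction to `Y`
  have hrpow : ∀ m : ℕ, r (W.pull g (W.pull (fst X P) (y * W.cl X h ^ m))) =
      r (W.pull g (W.pull (fst X P) y)) * W'.cl Y h' ^ m := by
    intro m
    induction m with
    | zero => rw [pow_zero, pow_zero, mul_one, mul_one]
    | succ m ih =>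
      rw [pow_succ, ← mul_assoc, map_mul (W.pull (fst X P)), map_mul (W.pull g), N.r_mul, ih,
        N.r_divisor, mul_assoc, ← pow_succ]
  have hry : r (W.pull g (W.pull (fst X P) y)) ∈ W'.gr Y i := N.r_mem _ _ (hem hy)
  have hrA := hspread (W.pull g (W.pull (fst X P) (y * W.cl X h ^ (k + 1))))
    (W.pull g (W.pull (fst X P) y)) (by rw [hrpow]; exact hinv _ hry)
  have hrline : r Zd = 0 := N.r_line
  have ha₀y : a₀ = y := by
    rw [← sub_eq_zero]
    refine N.r_inj i ?_ _ (sub_mem ha₀ hy) ?_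
    · have := N.dimY; omega
    · rw [map_sub, map_sub, map_sub, ← hrA, hA2, map_add, map_add, N.r_mul, N.r_mul, N.r_mul,
        hrline, mul_zero, mul_zero, mul_zero, add_zero, add_zero, sub_self]
  -- the value
  have hval : W.push (g ≫ fst X P) (W.corr lam' (W.pull (g ≫ fst X P)
      (y * W.cl X h ^ (k + 2)))) = y + (a₁ - b₀) * W.cl X h := by
    rw [hee, N.relation hh hk hy h0, map_sub, hcomm, ← mul_assoc, hcomm, hcomm, hA2, hB2, hpp,
      ha₀y]
    have hZ3 : Zd * Zd * Zd = 0 := N.cube_D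
    have e1 : (W.pull g (W.pull (fst X P) y) + W.pull g (W.pull (fst X P) a₁) * Zd +
        W.pull g (W.pull (fst X P) a₂) * (Zd * Zd)) * Zd =
        W.pull g (W.pull (fst X P) y) * Zd + W.pull g (W.pull (fst X P) a₁) * (Zd * Zd) := by
      rw [add_mul, add_mul, mul_assoc (W.pull g (W.pull (fst X P) a₂)), hZ3, mul_zero, add_zero,
        mul_assoc]
    have e2 : (W.pull g (W.pull (fst X P) b₀) + W.pull g (W.pull (fst X P) b₁) * Zd +
        W.pull g (W.pull (fst X P) b₂) * (Zd * Zd)) * Zd * Zd =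
        W.pull g (W.pull (fst X P) b₀) * (Zd * Zd) := by
      have e3 : W.pull g (W.pull (fst X P) b₁) * Zd * Zd * Zd = 0 := by
        rw [mul_assoc, mul_assoc, ← mul_assoc Zd, hZ3, mul_zero]
      have e4 : W.pull g (W.pull (fst X P) b₂) * (Zd * Zd) * Zd * Zd = 0 := by
        rw [mul_assoc (W.pull g (W.pull (fst X P) b₂)), hZ3, mul_zero, zero_mul]
      rw [add_mul, add_mul, add_mul, add_mul, e3, e4, add_zero, add_zero, mul_assoc]
    rw [e1, e2, map_sub, map_sub, map_add, map_add, N.push_one, N.push_two, N.push_two, sub_mul]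
    abel
  refine ⟨a₁ - b₀, sub_mem ha₁ hb₀, ?_⟩
  have hyk : y * W.cl X h ^ (k + 2) ∈ W.gr X (2 * T.dim X - i) :=
    W.mul_pow_mem hh (k + 2) (by rw [hnat]; push_cast; ring) hy
  rw [W.corr_part (r := i) (j := 2 * T.dim X - i) (k := i) _ (by ring) hyk, W.corr_down, hval]
  refine W.proj_same (add_mem hy ?_)
  have := W.mul_pow_mem hh 1 (k := i) (by push_cast; ring) (sub_mem ha₁ hb₀)
  rwa [pow_one] at this

end Net

end WeilCohomology

end Pool.Agent.WeilUniform
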