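import Mathlib
import Pool.Agent.NET.ClassDefs
import Pool.Agent.NET.Core
import Pool.Agent.BBD.ClassFinal

/-!
# Reduction to the critical degree
-/

open CategoryTheory MonoidalCategory CartesianMonoidalCategory

namespace Pool.Agent.Weil

open Pool.Agent.WeilUniform

set_option linter.unusedSectionVars false

universe s t v u w x y

section single

variable {𝒱 : Type u} [Category.{v} 𝒱] [CartesianMonoidalCategory 𝒱]
  {𝒱' : Type u} [Category.{v} 𝒱'] [CartesianMonoidalCategory 𝒱']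
  {T : IntersectionTheory.{v, u, w} 𝒱} {T' : IntersectionTheory.{v, u, w} 𝒱'}
  {K : Type x} [Field K]

lemma IsNet.unbundle {W : WeilCohomology.{v, u, w, x, y} T K}
    {W' : WeilCohomology.{v, u, w, x, y} T' K} {X P D : 𝒱} {Y : 𝒱'} {h : T.obj X} {h' : T'.obj Y}
    {ζ : T.obj P} {g : D ⟶ X ⊗ P} {r : W.obj D → W'.obj Y} (N : IsNet W W' h h' ζ g r) :
    WeilUniform.WeilCohomology.Net (T := T.unbundle) (T' := T'.unbundle) W.unbundle W'.unbundle
      (X := X) (P := P) (D := D) (Y := Y) h h' ζ g (PullPush.linearOfComb r N.linear) where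
  dimP := N.dim_plane
  dimD := N.dim_total
  dimY := N.dim_member
  hζ := N.degree_line
  plane := by
    intro β
    have key : ∀ β : W.obj P, ∃ c : Fin 3 → K,
        ∑ i, c i • (![(1 : W.obj P), W.cl ζ, W.cup (W.cl ζ) (W.cl ζ)] i) = β := fun β =>
      (Submodule.mem_span_range_iff_exists_fun K).1 (by rw [N.plane.2]; trivial)
    obtain ⟨c, hc⟩ := key β
    refine ⟨c 0, c 1, c 2, ?_⟩
    rw [Fin.sum_univ_three] at hc
    exact hc.symm
  point := by
    apply W.unbundle.point.1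
    rw [W.unbundle.algebraMap_integral, map_one]
    exact N.point
  member := by
    have h1 := W.unbundle.cl_pull (X := X ⊗ P) (Y := X) (fst X P) h
    have h2 := W.unbundle.cl_pull (X := X ⊗ P) (Y := P) (snd X P) ζ
    rw [← h1, ← h2]
    exact N.member
  weak := fun j hj α hα => by
    obtain ⟨β, hβ, h1⟩ := N.weak j α hj hα
    exact ⟨β, hβ, h1⟩
  r_mul := fun α β => N.cup α β
  r_mem := fun j α hα => N.degree j α hα
  r_line := by
    have h1 := W.unbundle.cl_pull (X := D) (Y := P) (g ≫ snd X P) ζ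
    have h2 := W.unbundle.pull_comp (X := D) (Y := X ⊗ P) (Z := P) g (snd X P)
      (W.unbundle.cl P ζ)
    rw [← h2, ← h1]
    exact N.line
  r_divisor := by
    have h1 := W.unbundle.cl_pull (X := D) (Y := X) (g ≫ fst X P) h
    have h2 := W.unbundle.pull_comp (X := D) (Y := X ⊗ P) (Z := X) g (fst X P)
      (W.unbundle.cl X h)
    rw [← h2, ← h1]
    exact N.divisor
  r_inj := fun j hj α hα h0 => by
    have h2 := W.unbundle.pull_comp (X := D) (Y := X ⊗ P) (Z := X) g (fst X P) α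
    rw [← h2] at h0
    exact N.injective j α hj hα h0
  spread := fun i z hz => by
    obtain ⟨z', hz', h1, h2⟩ := N.spread i z hz
    refine ⟨z', hz', fun α => ?_, fun α β h0 => h2 α β h0⟩
    have h3 := W.unbundle.cl_pull (X := D) (Y := P) (g ≫ snd X P) ζ
    have h4 := W.unbundle.pull_comp (X := D) (Y := X ⊗ P) (Z := P) g (snd X P)
      (W.unbundle.cl P ζ)
    rw [← h4, ← h3]
    have h5 : ∀ β : W.unbundle.H D, β * W.unbundle.cl D
        (T.unbundle.pull (X := D) (Y := P) (g ≫ snd X P) ζ) =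
        W.lefschetz (T.upper (g ≫ snd X P) ζ) 1 β := by
      intro β
      have h6 := mulCl_apply (W := W) (T.upper (g ≫ snd X P) ζ) β
      exact h6
    rw [h5, h5]
    exact h1 α

lemma IsNetSection.exists_inverse [CharZero K] {W : WeilCohomology.{v, u, w, x, y} T K}
    {W' : WeilCohomology.{v, u, w, x, y} T' K} {X : 𝒱} {h : T.obj X} {Y : 𝒱'} {h' : T'.obj Y}
    (N : IsNetSection W W' X h Y h') (hh : T.InDegree 1 h)
    (hard : ∀ j ≤ T.dim X, W.HardLefschetz h j) {i : ℕ} (hi : i + 2 ≤ T.dim X)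
    (hY : ∃ z, T'.InDegree i z ∧ W'.IsLefschetzInverse h' i z)
    (hX : 2 ≤ i → ∃ z, T.InDegree ((i - 2 : ℕ) : ℤ) z ∧ W.IsLefschetzInverse h (i - 2) z) :
    W.HasInjectiveCycle X i := by
  obtain ⟨P, D, ζ, g, r, N⟩ := N
  have hdimY := N.dim_member
  obtain ⟨k, hk⟩ : ∃ k : ℕ, k + (i + 2) = T.dim X := ⟨T.dim X - (i + 2), by omega⟩
  obtain ⟨lam, hlam, hinv⟩ := hY
  have N' := N.unbundle
  have hinv' : ∀ α ∈ W'.unbundle.gr Y i,
      W'.unbundle.corr (X := Y) (Y := Y) lam (α * W'.unbundle.cl Y h' ^ (k + 1)) = α := by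
    intro α hα
    have h1 := hinv.1 α hα
    have h2 : T'.dim Y - i = k + 1 := by omega
    rw [h2] at h1
    exact h1
  obtain ⟨z, hz, hzp⟩ := WeilUniform.WeilCohomology.Net.exists_prim (T := T.unbundle)
    (T' := T'.unbundle) (W := W.unbundle) (W' := W'.unbundle) (X := X) (P := P) (D := D) (Y := Y)
    N' (h := h) hh hk (lam := lam) hlam hinv'
  have hki : T.dim X - i = k + 2 := by omega
  -- the inverse in degree `i - 2`
  obtain ⟨μ, hμ, hμ1, hμ2⟩ : ∃ μ : T.unbundle.CH (X ⊗ X), μ ∈ T.unbundle.gr (X ⊗ X) ((i : ℤ) - 2) ∧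
      (∀ α ∈ W.unbundle.gr X ((i : ℤ) - 2),
        W.unbundle.corr (X := X) (Y := X) μ (α * W.unbundle.cl X h ^ (k + 2 + 2)) = α) ∧
      ∀ β ∈ W.unbundle.gr X (2 * T.dim X - i + 2),
        W.unbundle.corr (X := X) (Y := X) μ β * W.unbundle.cl X h ^ (k + 2 + 2) = β := by
    by_cases h2 : 2 ≤ i
    · obtain ⟨μ, hμ, h3, h4⟩ := hX h2
      have e1 : ((i - 2 : ℕ) : ℤ) = (i : ℤ) - 2 := by omega
      have e2 : T.dim X - (i - 2) = k + 2 + 2 := by omega
      rw [e1] at hμ h3 h4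
      rw [e2] at h3 h4
      refine ⟨μ, hμ, fun α hα => h3 α hα, fun β hβ => h4 β ?_⟩
      have e3 : 2 * (T.dim X : ℤ) - (i - 2) = 2 * T.dim X - i + 2 := by ring
      rw [e3]
      exact hβ
    · refine ⟨0, zero_mem _, fun α hα => ?_, fun β hβ => ?_⟩
      · rw [W.unbundle.gr_eq_bot X _ (by omega), Submodule.mem_bot] at hα
        rw [hα, zero_mul, map_zero]
      · rw [W.unbundle.gr_eq_bot X _ (by
          have : T.unbundle.dim X = T.dim X := rfl
          omega), Submodule.mem_bot] at hβ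
        rw [hβ, map_zero, zero_mul]
  have hdd : T.unbundle.dim X = T.dim X := rfl
  obtain ⟨θ, hθ, hθi⟩ := W.unbundle.exists_inverse_of_prim (X := X) (h := h) hh (i := i) (by omega)
    (fun α hα h0 => hard i (by omega) α hα h0) hμ
    (by rw [hdd, hki]; exact hμ1) (by rw [hdd, hki]; exact hμ2)
    (by rw [hdd, hki]; exact hzp)
  exact ⟨θ, hθ, fun β hβ h0 => hθi β hβ h0⟩

lemma hardLefschetz_smul {W : WeilCohomology.{v, u, w, x, y} T K} [CharZero K] {X : 𝒱}
    {h : T.obj X} {c : ℚ} (hc : c ≠ 0) {j : ℕ} (H : W.HardLefschetz h j) :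
    W.HardLefschetz (c • h) j := by
  intro α hα h0
  refine H α hα ?_
  have h1 := W.unbundle.cl_smul X c h
  have h2 : W.cl (c • h) = (c : K) • W.cl h := h1
  have h3 : W.lefschetz (c • h) (T.dim X - j) α =
      (c : K) ^ (T.dim X - j) • W.lefschetz h (T.dim X - j) α := by
    change α * W.cl (c • h) ^ (T.dim X - j) = (c : K) ^ (T.dim X - j) •
      (α * W.cl h ^ (T.dim X - j))
    rw [h2, smul_pow, mul_smul_comm]
  rw [h3] at h0
  have hcK : (c : K) ≠ 0 := by exact_mod_cast hc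
  exact (smul_eq_zero.1 h0).resolve_left (pow_ne_zero _ hcK)

lemma hasInjectiveCycle_top {W : WeilCohomology.{v, u, w, x, y} T K} (X : 𝒱) :
    W.HasInjectiveCycle X (T.dim X) := by
  refine ⟨T.unbundle.push (X := X) (Y := X ⊗ X) (lift (𝟙 X) (𝟙 X)) 1, ?_, fun β _ h0 => ?_⟩
  · have h1 : (1 : T.unbundle.CH X) ∈ T.unbundle.gr X 0 := SetLike.GradedOne.one_mem
    have h2 := T.unbundle.diag_mem (X := X) h1
    rw [add_zero] at h2
    exact h2
  · have h1 := W.unbundle.corr_one (X := X)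
    have h2 := LinearMap.congr_fun h1 β
    exact h2.symm.trans h0

/-- Injective cycles in degrees `≤ i` give inverse Lefschetz operators in degrees `≤ i`. -/
lemma exists_inverse_of_cycles [CharZero K] {W : WeilCohomology.{v, u, w, x, y} T K} {X : 𝒱}
    {h : T.obj X} (hh : T.InDegree 1 h) {i : ℕ} (hi : i ≤ T.dim X)
    (hard : ∀ j ≤ i, W.HardLefschetz h j) (cyc : ∀ j ≤ i, W.HasInjectiveCycle X j) :
    ∃ z, T.InDegree i z ∧ W.IsLefschetzInverse h i z := by
  obtain ⟨z, hz, hinv⟩ := Pool.Agent.WeilUniform.uniform_of_span (T := T.unbundle)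
    (fun _ : Unit => W.unbundle) X h hh i hi () (fun _ j _ => le_rfl)
    (fun j hj α hα h0 => hard j hj α hα h0)
    (fun j hj => by
      obtain ⟨z, hz, hinj⟩ := cyc j hj
      refine ⟨1, fun _ => z, fun _ => 1, fun _ => hz, fun β hβ h0 => ?_⟩
      rw [Fin.sum_univ_one, one_smul] at h0
      exact hinj β hβ h0) i le_rfl h hh () (fun α hα h0 => hard i le_rfl α hα h0)
  exact ⟨z, hz, hinv ()⟩

end single

section main

variable {Λ : Type s} {𝒱 : Λ → Type u} [∀ κ, Category.{v} (𝒱 κ)]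
  [∀ κ, CartesianMonoidalCategory (𝒱 κ)] {T : ∀ κ, IntersectionTheory.{v, u, w} (𝒱 κ)}
  {ι : Type t} {K : ι → Type x} [∀ ℓ, Field (K ℓ)] [∀ ℓ, CharZero (K ℓ)]
  {W : ∀ κ ℓ, WeilCohomology.{v, u, w, x, y} (T κ) (K ℓ)} {ℓ₀ : ι}
  {S : ∀ (κ : Λ) (X : 𝒱 κ), (T κ).obj X → Prop} {C : ∀ κ : Λ, 𝒱 κ → Prop}

/-- The conclusion for the varieties of dimension `n`. -/
def Concl (W : ∀ κ ℓ, WeilCohomology.{v, u, w, x, y} (T κ) (K ℓ))
    (S : ∀ (κ : Λ) (X : 𝒱 κ), (T κ).obj X → Prop) (d n : ℕ) : Prop :=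
  ∀ (κ : Λ) (X : 𝒱 κ) (h : (T κ).obj X), S κ X h → (T κ).dim X = n →
    ∀ i ≤ d, i ≤ n → ∀ (h' : (T κ).obj X), (T κ).InDegree 1 h' →
      (∃ ℓ, (W κ ℓ).HardLefschetz h' i) →
        ∃ z : (T κ).obj (X ⊗ X), (T κ).InDegree i z ∧ ∀ ℓ, (W κ ℓ).IsLefschetzInverse h' i z

lemma IsNetClass.cycles (H : IsNetClass W ℓ₀ S C) (d : ℕ)
    (critical : ∀ (κ : Λ) (X : 𝒱 κ) (h : (T κ).obj X), S κ X h → C κ X → 1 ≤ (T κ).dim X →
      (T κ).dim X ≤ d + 1 → (W κ ℓ₀).HasInjectiveCycle X ((T κ).dim X - 1)) (n : ℕ)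
    (IH : ∀ n', n' + 1 = n → Concl W S d n') (κ : Λ) (Z : 𝒱 κ) (h : (T κ).obj Z) (hS : S κ Z h)
    (hC : C κ Z) (hn : (T κ).dim Z = n) (j : ℕ) (hjd : j ≤ d) (hjn : j ≤ n) :
    (W κ ℓ₀).HasInjectiveCycle Z j := by
  induction j using Nat.strong_induction_on with
  | _ j ihj =>
    rcases Nat.lt_or_ge n (j + 2) with h1 | h1
    · by_cases h2 : j = n
      · rw [h2, ← hn]
        exact hasInjectiveCycle_top Z
      · have h3 : n = j + 1 := by omega
        have h4 := critical κ Z h hS hC (by omega) (by omega)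
        rw [hn, h3, Nat.add_sub_cancel] at h4
        exact h4
    · obtain ⟨c, hc, κ', Y, h', hS', N⟩ := H.net κ Z h hS hC (by omega)
      have hdimY : (T κ').dim Y + 1 = (T κ).dim Z := by
        obtain ⟨P, D, ζ, g, r, N⟩ := N
        exact N.dim_member
      have hh : (T κ).InDegree 1 (c • h) := Submodule.smul_mem _ _ (H.degree κ Z h hS)
      have hard : ∀ j ≤ (T κ).dim Z, (W κ ℓ₀).HardLefschetz (c • h) j := fun j hj =>
        hardLefschetz_smul hc (H.hard κ Z h hS j hj)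
      refine N.exists_inverse hh hard (by omega) ?_ (fun h2 => ?_)
      · obtain ⟨z, hz, hinv⟩ := IH (n - 1) (by omega) κ' Y h' hS' (by omega) j hjd (by omega) h'
          (H.degree κ' Y h' hS') ⟨ℓ₀, H.hard κ' Y h' hS' j (by omega)⟩
        exact ⟨z, hz, hinv ℓ₀⟩
      · exact exists_inverse_of_cycles hh (by omega) (fun j' hj' => hard j' (by omega))
          (fun j' hj' => ihj j' (by omega) (by omega) (by omega))

/-- **Theorem.** Reduction to the critical degree. -/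
theorem IsNetClass.uniform (H : IsNetClass W ℓ₀ S C) (d : ℕ)
    (critical : ∀ (κ : Λ) (X : 𝒱 κ) (h : (T κ).obj X), S κ X h → C κ X → 1 ≤ (T κ).dim X →
      (T κ).dim X ≤ d + 1 → (W κ ℓ₀).HasInjectiveCycle X ((T κ).dim X - 1)) (n : ℕ) :
    Concl W S d n := by
  have main : ∀ n, (∀ n', n' + 1 = n → Concl W S d n') → Concl W S d n := by
    intro n IH κ X h hS hn i hid hin h' hh' hinj
    obtain ⟨ℓ₁, hinj⟩ := hinj
    obtain ⟨Z, hZ, f, hSZ, hCZ, ⟨hdim, q, hq0, hq⟩, ⟨a, η, G, ha, hη, HG⟩⟩ := H.dominated κ X h hS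
    have hqK : (q : K ℓ₀) ≠ 0 := by exact_mod_cast hq0
    refine Pool.Agent.WeilUniform.uniform_of_span (fun ℓ => (W κ ℓ).unbundle) X h
      (H.degree κ X h hS) i (by rw [← hn] at hin; exact hin) ℓ₀
      (fun ℓ j hj => H.betti κ X h hS ℓ j (by omega))
      (fun j hj α hα h0 => H.hard κ X h hS j (by omega) α hα h0) (fun j hj => ?_) i le_rfl h' hh'
      ℓ₁ hinj
    obtain ⟨z₀, hz₀, hinj₀⟩ := H.cycles d critical n IH κ Z hZ hSZ hCZ (by omega) j (by omega)
      (by omega)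
    rw [hdim] at hinj₀
    exact (W κ ℓ₀).unbundle.exists_comb_descent (Z := Z) (X := X) f hdim hqK hη ha HG.perv
      (HG.pervMap ha hq) HG.gr_le (i := j) (by
        have h1 : (T κ).unbundle.dim X = (T κ).dim X := rfl
        omega) (z₀ := z₀) hz₀ hinj₀
  induction n with
  | zero => exact main 0 (fun n' hn' => by omega)
  | succ n ih => exact main (n + 1) (fun n' hn' => by
      have : n' = n := by omega
      rw [this]; exact ih)

end main

end Pool.Agent.Weil
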